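import Pool.Agent.BLP.StmtsK
import Pool.Agent.BLP.StmtsF
import Pool.Agent.BLP.StmtsE
import Pool.Agent.Helper33_BLP.GUQ
import Pool.Agent.Helper47_BLP.BXE
import Pool.Agent.Helper65_BLP.K_NCM
import Pool.Agent.Helper82_BLP.ZER
import Pool.Agent.Helper44_BLP.K_MPR
import Pool.Agent.Helper81_BLP.K_BXT
import Pool.Agent.Helper47_BLP.LIN
import Pool.Agent.Helper13_BLP.K_SPX
import Pool.Agent.Helper65_BLP.K_LIM
import Pool.Agent.Helper24_BLP.K_FIN
import Pool.Agent.Helper53_BLP.D_GEO
import Pool.Agent.Helper52_BLP.D_VLT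
import Pool.Agent.Helper72_BLP.D_GRD
import Pool.Agent.Helper53_BLP.D_GOO
import Pool.Agent.Helper18_BLP.D_FAT
import Pool.Agent.Helper69_BLP.D_INV
import Pool.Agent.Helper23_BLP.D_CLO
import Pool.Agent.Helper76_BLP.D_UNQ
import Pool.Agent.Helper67_BLP.D_RES
import Pool.Agent.Helper62_BLP.A_ENA
import Pool.Agent.Helper52_BLP.A_PAB
import Pool.Agent.Helper77_BLP.A_BDD
import Pool.Agent.Helper24_BLP.A_ONE
import Pool.Agent.Helper50_BLP.A_EXI
import Pool.Agent.Helper82_BLP.SPK
import Pool.Agent.Helper8_BLP.A_PNT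
import Pool.Agent.Helper48_BLP.A_SPL
import Pool.Agent.Helper68_BLP.SubBel
import Pool.Agent.Helper67_BLP.A_LEV
import Pool.Agent.Helper76_BLP.A_INC
import Pool.Agent.Helper72_BLP.A_MOD
import Pool.Agent.Helper72_BLP.A_CTL
import Pool.Agent.Helper8_BLP.A_CRO
import Pool.Agent.Helper95_BLP.A_QUA
import Pool.Agent.Helper8_BLP.A_STP
import Pool.Agent.Helper6_BLP.COV
import Pool.Agent.Helper50_BLP.A_RAT
import Pool.Agent.Helper79_BLP.M_REP
import Pool.Agent.Helper33_BLP.MEA
import Pool.Agent.Helper18_BLP.M_TRF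
import Pool.Agent.Helper60_BLP.SCF
import Pool.Agent.Helper60_BLP.LEV
import Pool.Agent.Helper97_BLP.OSM
import Pool.Agent.Helper77_BLP.M_XMG
import Pool.Agent.Helper1_BLP.M_XIN
import Pool.Agent.Helper13_BLP.M_CEL
import Pool.Agent.Helper9_BLP.M_EXL
import Pool.Agent.Helper20_BLP.M_INT
import Pool.Agent.Helper52_BLP.M_EAQ
import Pool.Agent.Helper65_BLP.M_GSA
import Pool.Agent.Helper83_BLP.M_FEK
import Pool.Agent.Helper83_BLP.M_POS
import Pool.Agent.Helper48_BLP.M_BLK
import Pool.Agent.Helper68_BLP.Low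
import Pool.Agent.Helper62_BLP.M_LL1
import Pool.Agent.Helper68_BLP.Llq
import Pool.Agent.Helper47_BLP.M_OSL
import Pool.Agent.Helper65_BLP.M_LLU
import Pool.Agent.Helper47_BLP.M_FIN

/-!
# Squad BLP: assembly, part 1 (blocks A, M, K, D)
-/

namespace Pool.Agent.BLP.H10

open MeasureTheory ProbabilityTheory Filter Topology Pool.Agent.BLP
open scoped ENNReal

theorem ena : EnaStmt := H62.a_ena
theorem pab : PabStmt := H52.pab
theorem bdd : BddStmt := H77.a_bdd pab
theorem one : OneStmt := H24.one ena pab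
theorem exi : ExiStmt := H50.a_exi ena pab bdd
theorem spk : SpkStmt := H82.spk ena bdd exi
theorem pnt : PntStmt := H8.a_pnt ena pab bdd spk
theorem spl : SplStmt := H48.a_spl ena pab bdd exi
theorem bel : BelStmt := H68.bel one spl
theorem lev : LevStmt := H67.a_lev one spk
theorem inc : IncStmt := H76.a_inc one spk lev
theorem mod : ModStmt := H72.a_mod pab bdd inc
theorem ctl : CtlStmt := H72.a_ctl one mod
theorem cro : CroStmt := H8.a_cro
theorem qua : QuaStmt := H95.qua pab exi pnt spk cro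
theorem stp : StpStmt := H8.a_stp ena pab bel pnt
theorem cov : CovStmt := H6.cov
theorem rat : RatStmt := H50.a_rat ena pab one exi
theorem rep : RepStmt := H79.m_rep bdd rat
theorem mea : MeaStmt := H33.mea
theorem trf : TrfStmt := H18.m_trf cov
theorem scf : ScfStmt := H60.m_scf cov
theorem lvy : LvyStmt := H60.m_lev
theorem osm : OsmStmt := H97.osm lvy
theorem xmg : XmgStmt := H77.m_xmg osm
theorem xin : XinStmt := H1.xin xmg
theorem cel : CelStmt := H13.m_cel exi
theorem exl : ExlStmt := H9.m_exl cel xin xmg mea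
theorem int : IntStmt := H20.m_int spk one inc trf exl mea
theorem eaq : EaqStmt := H52.eaq trf scf mea
theorem gsa : GsaStmt := H65.m_gsa spl eaq int exl
theorem fek : FekStmt := H83.m_fek
theorem pos : PosStmt := H83.m_pos one bel int
theorem blk : BlkStmt := H48.m_blk rep trf int
theorem low : LowStmt := H68.low one spl inc blk int
theorem ll1 : Ll1Stmt := H62.m_ll1 low int
theorem llq : LlqStmt := H68.llq ll1 scf mea int
theorem osl : OslStmt := H47.m_osl lvy
theorem llu : LluStmt := H65.m_llu inc one llq osl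
theorem fcm : FcmStmt := H47.m_fin gsa fek pos llu

theorem geo : GeoStmt := H53.d_geo
theorem vlt : VltStmt := H52.vlt
theorem grd : GrdStmt := H72.d_grd
theorem goo : GooStmt := H53.d_goo ena bel stp cov geo vlt grd
theorem fat : FatStmt := H18.d_fat
theorem inv : InvStmt := H69.d_inv
theorem clo : CloStmt := H23.d_clo
theorem unq : UnqStmt := H76.d_unq
theorem res' : ResStmt' := H67.d_res

theorem guq : GuqStmt := H33.guq
theorem bxe : BxeStmt := H47.bxe
theorem ncm : NcmStmt := H65.ncm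
theorem zer : ZerStmt := H82.zer
theorem mpr : MprStmt := H44.mpr
theorem bxt : BxtStmt := H81.k_bxt
theorem lin : LinStmt := H47.lin
theorem spx : SpxStmt := H13.k_spx
theorem lim : LimStmt := H65.lim
theorem fin : FinStmt := H24.fin

/-- the canonical space -/
theorem can : ∀ (Ω : Type) [MeasurableSpace Ω] (P : Measure Ω) (B : Ω → Env), IsBM P B →
    AEMeasurable (fun ω (i : ℤ × ℚ) => B ω i.1 i.2) P ∧
    Sp (P.map fun ω (i : ℤ × ℚ) => B ω i.1 i.2) BX ∧
    ∀ᵐ ω ∂P, Cts (B ω) ∧ BX (fun i : ℤ × ℚ => B ω i.1 i.2) = B ω := by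
  intro Ω _ P B hB
  refine ⟨(mpr guq Ω P B hB).1, spx bxe ncm zer guq mpr bxt lin Ω P B hB, ?_⟩
  filter_upwards [zer bxe Ω P B hB] with ω h
  exact ⟨h.1, h.2.2.2⟩

/-- everything from the main theorem on the canonical space -/
theorem main_of_msp (h : MspStmt) : MainStmt := fin can h lim goo

theorem res_of_msp (h : MspStmt) : ResStmt := res' (main_of_msp h) unq

end Pool.Agent.BLP.H10
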