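import Pool.Agent.Helper10_BLP.Asm1
import Pool.Agent.BLP.StmtsV
import Pool.Agent.Helper82_BLP.LPP
import Pool.Agent.Helper32_BLP.V_SRT
import Pool.Agent.Helper37_BLP.V_REC
import Pool.Agent.Helper70_BLP.V_CHN
import Pool.Agent.Helper68_BLP.Box
import Pool.Agent.Helper70_BLP.V_CNT
import Pool.Agent.Helper81_BLP.V_MSV
import Pool.Agent.Helper82_BLP.STV
import Pool.Agent.Helper41_BLP.V_AVG
import Pool.Agent.Helper68_BLP.Llw
import Pool.Agent.Helper70_BLP.V_NUM
import Pool.Agent.Helper70_BLP.V_VLI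
import Pool.Agent.Helper99_BLP.VVV
import Pool.Agent.Helper68_BLP.CloV
import Pool.Agent.Helper35_BLP.NOV
import Pool.Agent.Helper35_BLP.FSA
import Pool.Agent.Helper9_BLP.F_FMO
import Pool.Agent.Helper77_BLP.F_FIE
import Pool.Agent.Helper46_BLP.F_FEX
import Pool.Agent.Helper52_BLP.F_FBE
import Pool.Agent.Helper20_BLP.F_FGA
import Pool.Agent.Helper53_BLP.F_FCA
import Pool.Agent.Helper29_BLP.F_FCP
import Pool.Agent.Helper65_BLP.F_FPH
import Pool.Agent.Helper24_BLP.F_FAS
import Pool.Agent.Helper97_BLP.EEX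
import Pool.Agent.Helper3_BLP.E_ECC
import Pool.Agent.Helper2_BLP.E_EAS
import Pool.Agent.Helper76_BLP.E_EMV
import Pool.Agent.Helper44_BLP.E_EBG
import Pool.Agent.Helper16_BLP.E_ELS
import Pool.Agent.Helper17_BLP.EEGM
import Pool.Agent.Helper89_BLP.E_ELV
import Pool.Agent.Helper29_BLP.E_EDL
import Pool.Agent.Helper74_BLP.E_EDR
import Pool.Agent.Helper32_BLP.E_ECT
import Pool.Agent.Helper2_BLP.E_ELL
import Pool.Agent.Helper67_BLP.E_ELR
import Pool.Agent.Helper24_BLP.E_ELQ

/-!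
# Squad BLP: assembly, part 2 (blocks V, E, F)
-/

namespace Pool.Agent.BLP.H10

open MeasureTheory ProbabilityTheory Filter Topology Pool.Agent.BLP
open scoped ENNReal

/-! ### Block V -/

theorem vmea : V.MeaStmt := fun X _ μ B hS m n s t _ _ => mea X μ B hS m s n t

theorem vlpp : V.LppStmt := V.H82.lpp bel qua
theorem vsrt : V.SrtStmt := V.H32.v_srt
theorem vrec : V.RecStmt := V.H37.v_rec vsrt
theorem vchn : V.ChnStmt := V.H70.v_chn
theorem vbox : V.BoxStmt := V.H68.box vrec vchn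
theorem vcnt : V.CntStmt := V.H70.v_cnt vlpp vbox cov
theorem vmsv : V.MsvStmt := V.H81.v_msv vmea ctl
theorem vstv : V.StvStmt := V.H82.stv
theorem vavg : V.AvgStmt := V.H41.v_avg vcnt vmsv vmea
theorem vllw : V.LlwStmt := V.H68.llw cov
theorem vnum : V.NumStmt := V.H70.v_num
theorem vvli : V.VliStmt := V.H70.v_vli vavg vllw vnum
theorem vwib : V.WibStmt := V.H99.v_wib
theorem vclo : V.CloStmt := V.H68.clo vmea inc
theorem vnov : V.NovStmt := V.H35.v_nov vvli vwib vclo vstv vmsv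

/-! ### Block E -/

theorem eex : EexStmt := H97.eex int eaq
theorem ecc : EccStmt := H3.e_ecc qua eex
theorem eas : EasStmt := H2.e_eas
theorem emv : EmvStmt := H76.e_emv eex ecc eas
theorem ebg : EbgStmt := H44.e_ebg
theorem els : ElsStmt := H16.e_els trf
theorem egm : EgmStmt := H17.e_egm
theorem elv : ElvStmt := H89.e_elv spk eex emv els egm
theorem edl : EdlStmt := H29.e_edl
theorem edr : EdrStmt := H74.e_edr
theorem ect : EctStmt := H32.e_ect exi pnt
theorem ell : EllStmt := H2.e_ell inc elv els ebg edl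
theorem elr : ElrStmt := H67.e_elr spk lev ect elv els edr
theorem elq : ElqStmt := H24.e_elq spl spk lev ell elr

/-! ### Block F -/

theorem fsa : FsaStmt := H35.f_fsa
theorem fmo : FmoStmt := H9.f_fmo
theorem fie : FieStmt := H77.f_fie
theorem fex : FexStmt := H46.f_fex
theorem fbe : FbeStmt := H52.fbe
theorem fga : FgaStmt := H20.f_fga
theorem fca : FcaStmt := H53.f_fca
theorem fcp : FcpStmt := H29.f_fcp
theorem fph : FphStmt := H65.f_fph
theorem fdi : FdiStmt := H29.f_fdi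
theorem fas : FasStmt := H24.f_fas

theorem meanV {X : Type} [MeasurableSpace X] (μ : Measure X) (B : X → Env) (c : ℝ) (hS : Sp μ B)
    (hc : LLNc μ B c) : MeanV μ B c :=
  ⟨fun k n s t hkn hst => (eex X μ B hS k n s t hkn hst).1, emv X μ B c hS hc⟩

theorem locV {X : Type} [MeasurableSpace X] (μ : Measure X) (B : X → Env) (c : ℝ) (hS : Sp μ B)
    (hc : LLNc μ B c) : LocV μ B := elq X μ B c hS hc

/-- the main theorem on the canonical space -/
theorem msp_of (fmd : FmdStmt) (fim : FimStmt) : MspStmt := by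
  intro X _ μ B hS
  obtain ⟨c, hc⟩ := fcm X μ B hS
  obtain ⟨β, hβ, hae⟩ := fas inc mea mod spk qua pab one exi pnt fat fsa fmo fie fex fbe fga fca
    fcp fph fdi fmd fim X μ B c hS (meanV μ B c hS hc) (locV μ B c hS hc)
  refine ⟨β, hβ, ?_⟩
  filter_upwards [hae, vnov X μ B c hS hc β hβ hae] with x h1 h2
  exact ⟨h1.1, h1.2, h2⟩

end Pool.Agent.BLP.H10
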