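import Pool.Agent.Helper10_BLP.Asm2
import Pool.Agent.Helper55_BLP.F_FMD
import Pool.Agent.Helper1_BLP.F_FIM

/-!
# Squad BLP: the main theorem
-/

namespace Pool.Agent.BLP.H10

open MeasureTheory ProbabilityTheory Filter Topology Pool.Agent.BLP

theorem fmd : FmdStmt := H55.f_fmd
theorem fim : FimStmt := H1.f_fim

theorem msp : MspStmt := msp_of fmd fim

theorem res : ResStmt := res_of_msp msp

end Pool.Agent.BLP.H10
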